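import Pool.Agent.Helper37.ETC.Defs

/-! Block N3 of the Elementary Type Conjecture (MP_600e55_nt). -/

set_option autoImplicit false

namespace Pool.Helper37.ETC

section NF

variable {p : ℕ} [Fact p.Prime]

namespace N3aux

variable {F : Type*} [Field F] (O : ValuationSubring F)

lemma exists_scale (g : F) : ∃ s ∈ O, s ≠ 0 ∧ s * g ∈ O := by
  rcases O.mem_or_inv_mem g with h | h
  · exact ⟨1, O.one_mem, one_ne_zero, by simpa using h⟩
  · by_cases hg : g = 0
    · exact ⟨1, O.one_mem, one_ne_zero, by simp [hg]⟩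
    · exact ⟨g⁻¹, h, inv_ne_zero hg, by rw [inv_mul_cancel₀ hg]; exact O.one_mem⟩

/-- continuity at a point. -/
def Ct (x : Fin p → F) (a : F) (f : (Fin p → F) → F → F) : Prop :=
  ∀ c : F, c ≠ 0 → ∃ d : F, d ≠ 0 ∧ ∀ (u : Fin p → F) (v : F), (∀ i, u i ∈ O) → v ∈ O →
      ∃ t ∈ O, f (fun i => x i + d * u i) (a + d * v) = f x a + c * t

variable {O}

lemma common {x : Fin p → F} {a : F} {f g : (Fin p → F) → F → F} (hf : Ct O x a f)
    (hg : Ct O x a g) {c c' : F} (hc : c ≠ 0) (hc' : c' ≠ 0) :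
    ∃ d : F, d ≠ 0 ∧ ∀ (u : Fin p → F) (v : F), (∀ i, u i ∈ O) → v ∈ O →
      (∃ t ∈ O, f (fun i => x i + d * u i) (a + d * v) = f x a + c * t) ∧
      ∃ t ∈ O, g (fun i => x i + d * u i) (a + d * v) = g x a + c' * t := by
  obtain ⟨d, hd, h⟩ := hf c hc
  obtain ⟨d', hd', h'⟩ := hg c' hc'
  rcases O.mem_or_inv_mem (d / d') with hm | hm
  · refine ⟨d, hd, fun u v hu hv => ⟨h u v hu hv, ?_⟩⟩
    have := h' (fun i => d / d' * u i) (d / d' * v) (fun i => O.mul_mem _ _ hm (hu i))
      (O.mul_mem _ _ hm hv)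
    have e : ∀ z : F, d' * (d / d' * z) = d * z := by
      intro z
      field_simp
    simpa only [e] using this
  · refine ⟨d', hd', fun u v hu hv => ⟨?_, h' u v hu hv⟩⟩
    have hm' : d' / d ∈ O := by simpa using hm
    have := h (fun i => d' / d * u i) (d' / d * v) (fun i => O.mul_mem _ _ hm' (hu i))
      (O.mul_mem _ _ hm' hv)
    have e : ∀ z : F, d * (d' / d * z) = d' * z := by
      intro z
      field_simp
    simpa only [e] using this

lemma Ct.const (x : Fin p → F) (a : F) (r : F) : Ct O x a (fun _ _ => r) := by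
  intro c hc
  exact ⟨1, one_ne_zero, fun u v hu hv => ⟨0, O.zero_mem, by simp⟩⟩

lemma Ct.coord (x : Fin p → F) (a : F) (i : Fin p) : Ct O x a (fun y _ => y i) := by
  intro c hc
  exact ⟨c, hc, fun u v hu hv => ⟨u i, hu i, rfl⟩⟩

lemma Ct.last (x : Fin p → F) (a : F) : Ct O x a (fun _ b => b) := by
  intro c hc
  exact ⟨c, hc, fun u v hu hv => ⟨v, hv, rfl⟩⟩

lemma Ct.add {x : Fin p → F} {a : F} {f g : (Fin p → F) → F → F} (hf : Ct O x a f)
    (hg : Ct O x a g) : Ct O x a (fun y b => f y b + g y b) := by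
  intro c hc
  obtain ⟨d, hd, h⟩ := common hf hg hc hc
  refine ⟨d, hd, fun u v hu hv => ?_⟩
  obtain ⟨⟨t, ht, e⟩, t', ht', e'⟩ := h u v hu hv
  refine ⟨t + t', O.add_mem _ _ ht ht', ?_⟩
  simp only [e, e']
  ring

lemma Ct.mul {x : Fin p → F} {a : F} {f g : (Fin p → F) → F → F} (hf : Ct O x a f)
    (hg : Ct O x a g) : Ct O x a (fun y b => f y b * g y b) := by
  intro c hc
  obtain ⟨s, hs, hs0, hsg⟩ := exists_scale O (g x a)
  obtain ⟨s1, hs1, hs10, hsf⟩ := exists_scale O (f x a)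
  obtain ⟨s2, hs2, hs20, hsc⟩ := exists_scale O c
  obtain ⟨d, hd, h⟩ := common hf hg (mul_ne_zero hc hs0)
    (mul_ne_zero hc (mul_ne_zero hs10 hs20))
  refine ⟨d, hd, fun u v hu hv => ?_⟩
  obtain ⟨⟨t, ht, e⟩, t', ht', e'⟩ := h u v hu hv
  refine ⟨(s * g x a) * t + (s1 * f x a) * (s2 * t') + (s * t) * (s1 * t') * (s2 * c), ?_, ?_⟩
  · refine O.add_mem _ _ (O.add_mem _ _ (O.mul_mem _ _ hsg ht) (O.mul_mem _ _ hsf
      (O.mul_mem _ _ hs2 ht'))) (O.mul_mem _ _ (O.mul_mem _ _ (O.mul_mem _ _ hs ht)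
        (O.mul_mem _ _ hs1 ht')) hsc)
  · simp only [e, e']
    ring

lemma Ct.sum {ι : Type*} (S : Finset ι) {x : Fin p → F} {a : F}
    (f : ι → (Fin p → F) → F → F) (hf : ∀ i ∈ S, Ct O x a (f i)) :
    Ct O x a (fun y b => ∑ i ∈ S, f i y b) := by
  classical
  induction S using Finset.induction_on with
  | empty => simpa using Ct.const x a 0
  | insert i S hi ih =>
    have h1 := hf i (Finset.mem_insert_self _ _)
    have h2 := ih (fun j hj => hf j (Finset.mem_insert_of_mem hj))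
    have := Ct.add h1 h2
    simpa only [Finset.sum_insert hi] using this

lemma Ct.prod {ι : Type*} (S : Finset ι) {x : Fin p → F} {a : F}
    (f : ι → (Fin p → F) → F → F) (hf : ∀ i ∈ S, Ct O x a (f i)) :
    Ct O x a (fun y b => ∏ i ∈ S, f i y b) := by
  classical
  induction S using Finset.induction_on with
  | empty => simpa using Ct.const x a 1
  | insert i S hi ih =>
    have h1 := hf i (Finset.mem_insert_self _ _)
    have h2 := ih (fun j hj => hf j (Finset.mem_insert_of_mem hj))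
    have := Ct.mul h1 h2
    simpa only [Finset.prod_insert hi] using this

end N3aux

open N3aux

/-- N3 (continuity) -/
theorem nf_cont {F : Type*} [Field F] (O : ValuationSubring F) (x : Fin p → F) (a : F) {c : F}
    (hc : c ≠ 0) :
    ∃ d : F, d ≠ 0 ∧ ∀ (u : Fin p → F) (v : F), (∀ i, u i ∈ O) → v ∈ O →
      ∃ t ∈ O, nf (fun i => x i + d * u i) (a + d * v) = nf x a + c * t := by
  have key : Ct O x a (fun y b => nf y b) := by
    have h : ∀ (y : Fin p → F) (b : F), nf y b = ∑ σ : Equiv.Perm (Fin p),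
        ((Equiv.Perm.sign σ : ℤ) : F) * ∏ j : Fin p,
          (if j ≤ σ j then y (σ j - j) else b * y (σ j - j)) := by
      intro y b
      rw [nf, Matrix.det_apply']
      rfl
    simp only [h]
    refine Ct.sum _ _ (fun σ _ => Ct.mul (Ct.const x a _) (Ct.prod _ _ (fun j _ => ?_)))
    by_cases hj : j ≤ σ j
    · simp only [hj, if_true]
      exact Ct.coord x a _
    · simp only [hj, if_false]
      exact Ct.mul (Ct.last x a) (Ct.coord x a _)
  exact key c hc

end NF

end Pool.Helper37.ETC
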