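import Pool.Agent.Helper31.ETC.R2

/-! Block R5 of the Elementary Type Conjecture (MP_600e55_nt). -/

set_option autoImplicit false

namespace Pool.Helper37.ETC

namespace R5aux

/-- The properties of the set of positive elements used below. -/
structure Cone {K : Type*} [Field K] (R P : Set K) : Prop where
  sub : ∀ x ∈ P, x ∈ R
  radd : ∀ x ∈ R, ∀ y ∈ R, x + y ∈ R
  rneg : ∀ x ∈ R, -x ∈ R
  rmul : ∀ x ∈ R, ∀ y ∈ R, x * y ∈ R
  rinv : ∀ x ∈ R, x⁻¹ ∈ R
  one : (1 : K) ∈ P
  add : ∀ x ∈ P, ∀ y ∈ P, x + y ∈ P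
  mul : ∀ x ∈ P, ∀ y ∈ P, x * y ∈ P
  tot : ∀ x ∈ R, x ≠ 0 → x ∈ P ∨ -x ∈ P
  asymm : ∀ x ∈ P, -x ∉ P
  ne : ∀ x ∈ P, x ≠ 0
  arch : ∀ x ∈ R, ∃ n : ℕ, (n : K) - x ∈ P

namespace Cone

variable {K : Type*} [Field K] {R P : Set K}

lemma rone (h : Cone R P) : (1 : K) ∈ R := h.sub _ h.one

lemma rzero (h : Cone R P) : (0 : K) ∈ R := by
  simpa using h.radd _ h.rone _ (h.rneg _ h.rone)

lemma rnat (h : Cone R P) (n : ℕ) : (n : K) ∈ R := by
  induction n with
  | zero => simpa using h.rzero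
  | succ n ih => simpa using h.radd _ ih _ h.rone

lemma rsub (h : Cone R P) {x y : K} (hx : x ∈ R) (hy : y ∈ R) : x - y ∈ R := by
  rw [sub_eq_add_neg]
  exact h.radd _ hx _ (h.rneg _ hy)

/-- nonnegative elements. -/
def NN (P : Set K) (x : K) : Prop := x = 0 ∨ x ∈ P

lemma NN.add (h : Cone R P) {x y : K} (hx : NN P x) (hy : NN P y) : NN P (x + y) := by
  rcases hx with rfl | hx
  · simpa using hy
  · rcases hy with rfl | hy
    · exact Or.inr (by simpa using hx)
    · exact Or.inr (h.add _ hx _ hy)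

lemma NN.add_pos (h : Cone R P) {x y : K} (hx : NN P x) (hy : y ∈ P) : x + y ∈ P := by
  rcases hx with rfl | hx
  · simpa using hy
  · exact h.add _ hx _ hy

lemma NN.mul (h : Cone R P) {x y : K} (hx : NN P x) (hy : NN P y) : NN P (x * y) := by
  rcases hx with rfl | hx
  · exact Or.inl (by simp)
  · rcases hy with rfl | hy
    · exact Or.inl (by simp)
    · exact Or.inr (h.mul _ hx _ hy)

lemma NN.nat (h : Cone R P) (n : ℕ) : NN P (n : K) := by
  induction n with
  | zero => exact Or.inl (by simp)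
  | succ n ih =>
    rw [Nat.cast_succ]
    exact NN.add h ih (Or.inr h.one)

lemma NN.sq (h : Cone R P) {x : K} (hx : x ∈ R) : NN P (x ^ 2) := by
  by_cases h0 : x = 0
  · exact Or.inl (by simp [h0])
  · rcases h.tot x hx h0 with h1 | h1
    · exact Or.inr (by rw [pow_two]; exact h.mul _ h1 _ h1)
    · exact Or.inr (by rw [← neg_sq, pow_two]; exact h.mul _ h1 _ h1)

lemma NN.sum (h : Cone R P) {ι : Type*} (S : Finset ι) (f : ι → K)
    (hf : ∀ i ∈ S, NN P (f i)) : NN P (∑ i ∈ S, f i) := by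
  classical
  induction S using Finset.induction_on with
  | empty => exact Or.inl (by simp)
  | insert i S hi ih =>
    rw [Finset.sum_insert hi]
    exact NN.add h (hf i (Finset.mem_insert_self _ _))
      (ih (fun j hj => hf j (Finset.mem_insert_of_mem hj)))

lemma NN.of_not (h : Cone R P) {x : K} (hx : x ∈ R) (hn : x ∉ P) : NN P (-x) := by
  by_cases h0 : x = 0
  · exact Or.inl (by simp [h0])
  · exact Or.inr ((h.tot x hx h0).resolve_left hn)

/-- an element below `-m` is close to an integer below `-m`. -/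
lemma exists_floor (h : Cone R P) {y : K} (hy : y ∈ R) {m : ℕ} (hm : -y - m ∈ P) :
    ∃ k : ℕ, NN P (y + ((m + k : ℕ) : K)) ∧ 1 - (y + ((m + k : ℕ) : K)) ∈ P := by
  classical
  have hex : ∃ n : ℕ, (n : K) - (-y - m) ∈ P :=
    h.arch _ (h.rsub (h.rneg _ hy) (h.rnat m))
  have hk := Nat.find_spec hex
  have hmin : ∀ l < Nat.find hex, ((l : ℕ) : K) - (-y - m) ∉ P := fun l hl => Nat.find_min hex hl
  set k := Nat.find hex with hkdef
  have hk0 : k ≠ 0 := by
    intro h0
    rw [h0] at hk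
    have : -(-y - (m : K)) ∈ P := by
      simpa using hk
    exact h.asymm _ hm this
  obtain ⟨l, hl⟩ := Nat.exists_eq_succ_of_ne_zero hk0
  -- `y + m + k > 0` and `y + m + (k-1) ≤ 0`
  have h1 := hmin l (by omega)
  have hR : ((l : ℕ) : K) - (-y - m) ∈ R :=
    h.rsub (h.rnat l) (h.rsub (h.rneg _ hy) (h.rnat m))
  have h2 : NN P (-(((l : ℕ) : K) - (-y - m))) := NN.of_not h hR h1
  by_cases h3 : ((l : ℕ) : K) - (-y - m) = 0
  · refine ⟨l, Or.inl ?_, ?_⟩
    · push_cast
      linear_combination h3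
    · have : (1 : K) - (y + ((m + l : ℕ) : K)) = 1 := by
        push_cast
        linear_combination -h3
      rw [this]
      exact h.one
  · have h4 : -(((l : ℕ) : K) - (-y - m)) ∈ P := h2.resolve_left (fun h5 => h3 (neg_eq_zero.1 h5))
    refine ⟨k, Or.inr ?_, ?_⟩
    · have : y + ((m + k : ℕ) : K) = (k : K) - (-y - m) := by
        push_cast
        ring
      rw [this]
      exact hk
    · have : (1 : K) - (y + ((m + k : ℕ) : K)) = -(((l : ℕ) : K) - (-y - m)) := by
        rw [hl]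
        push_cast
        ring
      rw [this]
      exact h4

/-- scaling. -/
lemma exists_mul (h : Cone R P) {x : K} (hx : -x ∈ P) (m : ℕ) :
    ∃ N : ℕ, -((N : K) * x) - m ∈ P := by
  have hx0 : x ≠ 0 := by
    intro h0
    exact h.ne _ hx (by simp [h0])
  have hxR : x ∈ R := by
    simpa using h.rneg _ (h.sub _ hx)
  obtain ⟨N, hN⟩ := h.arch (-(m * x⁻¹)) (h.rneg _ (h.rmul _ (h.rnat m) _ (h.rinv _ hxR)))
  refine ⟨N, ?_⟩
  have := h.mul _ hN _ hx
  have e : ((N : K) - -(m * x⁻¹)) * -x = -((N : K) * x) - m := by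
    field_simp
    ring
  rwa [e] at this

end Cone

end R5aux

section Galois

variable {p : ℕ} [Fact p.Prime] {G K : Type*} [Group G] [TopologicalSpace G]
  [IsTopologicalGroup G] [CompactSpace G] [T2Space G] [TotallyDisconnectedSpace G] [Field K]
  [MulSemiringAction G K] {ζ : K}

open R5aux R5aux.Cone

/-- the cone of an archimedean involution. -/
theorem R5aux.cone_of_inv (Gd : Good 2 G K ζ) (c : G) (hc : c * c = 1) (hc1 : c ≠ 1)
    (ha : ArchInv K c) : Cone {x : K | c • x = x} (Pc c) := by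
  obtain ⟨h1, h2, h3, h4⟩ := involution_struct Gd c hc hc1
  refine ⟨?_, ?_, ?_, ?_, ?_, ?_, h1, ?_, ?_, h3, ?_, ?_⟩
  · rintro x ⟨hx0, y, hy, rfl⟩
    change c • (y ^ 2) = y ^ 2
    rw [smul_pow', hy]
  · intro x hx y hy
    change c • (x + y) = x + y
    rw [smul_add, show c • x = x from hx, show c • y = y from hy]
  · intro x hx
    change c • (-x) = -x
    rw [smul_neg, show c • x = x from hx]
  · intro x hx y hy
    change c • (x * y) = x * y
    rw [smul_mul', show c • x = x from hx, show c • y = y from hy]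
  · intro x hx
    change c • (x⁻¹) = x⁻¹
    rw [smul_inv'', show c • x = x from hx]
  · exact ⟨one_ne_zero, 1, smul_one c, one_pow 2⟩
  · rintro x ⟨hx0, z, hz, rfl⟩ y ⟨hy0, w, hw, rfl⟩
    exact ⟨mul_ne_zero hx0 hy0, z * w, by rw [smul_mul', hz, hw], by ring⟩
  · intro x hx hx0
    exact h2 x hx0 hx
  · rintro x ⟨hx0, -⟩
    exact hx0
  · intro x hx
    exact ha x hx

/-- R5 (separation of archimedean orderings; uses R2) -/
theorem exists_sep (Gd : Good 2 G K ζ) {m : ℕ} (c : Fin m → G)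
    (hc : ∀ j, c j * c j = 1 ∧ c j ≠ 1 ∧ ArchInv K (c j)) (j : Fin m)
    (hd : ∀ i, i ≠ j → ∃ x ∈ (Fx G : Set K), x ∈ (Pc (c i) : Set K) ∧ x ∉ (Pc (c j) : Set K)) :
    ∃ u ∈ (Fx G : Set K), -u ∈ (Pc (c j) : Set K) ∧ ∀ i, i ≠ j → u ∈ (Pc (c i) : Set K) := by
  classical
  have hC : ∀ i, Cone {x : K | c i • x = x} (Pc (c i)) := fun i =>
    R5aux.cone_of_inv Gd (c i) (hc i).1 (hc i).2.1 (hc i).2.2
  have hfx : ∀ x ∈ (Fx G : Set K), ∀ i, x ∈ {x : K | c i • x = x} := fun x hx i => hx (c i)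
  -- elements above `m` at `i` and close to `0` at `j`
  have key : ∀ i, i ≠ j → ∃ y ∈ (Fx G : Set K), NN (Pc (c j)) (1 - y ^ 2) ∧
      NN (Pc (c i)) (y ^ 2 - (m : K) ) ∧ y ^ 2 - (m : K) ≠ 0 := by
    intro i hij
    obtain ⟨x, hx, hxi, hxj⟩ := hd i hij
    have hx0 : x ≠ 0 := (hC i).ne _ hxi
    have hxj' : -x ∈ (Pc (c j) : Set K) := ((hC j).tot x (hfx x hx j) hx0).resolve_left hxj
    obtain ⟨N, hN⟩ := (hC j).exists_mul hxj' m
    have hNx : (N : K) * x ∈ (Fx G : Set K) := by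
      intro σ
      rw [smul_mul', hx σ]
      congr 1
      exact map_natCast (MulSemiringAction.toRingHom G K σ) N
    obtain ⟨k, hk1, hk2⟩ := (hC j).exists_floor (hfx _ hNx j) hN
    set y : K := (N : K) * x + ((m + k : ℕ) : K) with hy
    have hyF : y ∈ (Fx G : Set K) := by
      intro σ
      rw [hy, smul_add, hNx σ]
      congr 1
      exact map_natCast (MulSemiringAction.toRingHom G K σ) (m + k)
    have hN0 : N ≠ 0 := by
      rintro rfl
      have h1 : -(m : K) ∈ (Pc (c j) : Set K) := by simpa using hN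
      rcases NN.nat (hC j) m with h2 | h2
      · rw [h2] at h1
        exact (hC j).ne _ h1 (by simp)
      · exact (hC j).asymm _ h2 h1
    have hNi : (N : K) * x ∈ (Pc (c i) : Set K) := by
      obtain ⟨N', rfl⟩ := Nat.exists_eq_succ_of_ne_zero hN0
      have h1 : ((N'.succ : ℕ) : K) ∈ (Pc (c i) : Set K) := by
        rw [Nat.cast_succ]
        exact NN.add_pos (hC i) (NN.nat (hC i) N') (hC i).one
      exact (hC i).mul _ h1 _ hxi
    have hm : 1 ≤ m := by
      have := j.2
      omega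
    refine ⟨y, hyF, ?_, ?_⟩
    · have e : 1 - y ^ 2 = (1 - y) * (1 + y) := by ring
      rw [e]
      exact NN.mul (hC j) (Or.inr hk2) (NN.add (hC j) (Or.inr (hC j).one) hk1)
    · have e : y ^ 2 - (m : K) = (((m + k) ^ 2 - m : ℕ) : K) +
          ((2 * (m + k) : ℕ) : K) * ((N : K) * x) + ((N : K) * x) * ((N : K) * x) := by
        have h1 : m ≤ (m + k) ^ 2 := by
          calc m ≤ m + k := Nat.le_add_right _ _
            _ ≤ (m + k) ^ 2 := Nat.le_self_pow (by norm_num) _
        rw [Nat.cast_sub h1, hy]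
        push_cast
        ring
      have hpos : y ^ 2 - (m : K) ∈ (Pc (c i) : Set K) := by
        rw [e]
        refine NN.add_pos (hC i) (NN.add (hC i) (NN.nat (hC i) _) (NN.mul (hC i) (NN.nat (hC i) _)
          (Or.inr hNi))) ((hC i).mul _ hNi _ hNi)
      exact ⟨Or.inr hpos, (hC i).ne _ hpos⟩
  choose! y hyF hyj hyi hy0 using key
  set S : Finset (Fin m) := Finset.univ.erase j with hS
  have hcard : S.card + 1 = m := by
    rw [hS, Finset.card_erase_of_mem (Finset.mem_univ _), Finset.card_univ, Fintype.card_fin]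
    have := j.2
    omega
  have hcast : (S.card : K) + 1 = (m : K) := by
    have := congrArg (fun n : ℕ => (n : K)) hcard
    simpa using this
  refine ⟨∑ i ∈ S, y i ^ 2 - (m : K), ?_, ?_, ?_⟩
  · intro σ
    rw [smul_sub, Finset.smul_sum]
    congr 1
    · refine Finset.sum_congr rfl (fun i hi => ?_)
      rw [smul_pow', hyF i (Finset.ne_of_mem_erase hi) σ]
    · exact map_natCast (MulSemiringAction.toRingHom G K σ) m
  · have e : -(∑ i ∈ S, y i ^ 2 - (m : K)) = (∑ i ∈ S, (1 - y i ^ 2)) + 1 := by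
      rw [Finset.sum_sub_distrib, Finset.sum_const, nsmul_eq_mul, mul_one, ← hcast]
      ring
    rw [e]
    exact NN.add_pos (hC j) (NN.sum (hC j) _ _
      (fun i hi => hyj i (Finset.ne_of_mem_erase hi))) (hC j).one
  · intro i hi
    have hiS : i ∈ S := Finset.mem_erase.2 ⟨hi, Finset.mem_univ _⟩
    have e : ∑ l ∈ S, y l ^ 2 - (m : K) = (∑ l ∈ S.erase i, y l ^ 2) + (y i ^ 2 - (m : K)) := by
      rw [← Finset.add_sum_erase S _ hiS]
      ring
    rw [e]
    refine NN.add_pos (hC i) (NN.sum (hC i) _ _ (fun l hl => NN.sq (hC i) ?_))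
      ((hyi i hi).resolve_left (hy0 i hi))
    exact hfx _ (hyF l (Finset.ne_of_mem_erase (Finset.mem_of_mem_erase hl))) i

end Galois

end Pool.Helper37.ETC
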