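import Pool.Agent.Helper44.ETC.O1235
import Pool.Agent.Helper43.ETC.O6
import Pool.Agent.Helper29.ETC.D1234

/-! Block D7 of the Elementary Type Conjecture (MP_600e55_nt). -/

set_option autoImplicit false

namespace Pool.Helper37.ETC

section Galois

variable {p : ℕ} [Fact p.Prime] {G K : Type*} [Group G] [TopologicalSpace G]
  [IsTopologicalGroup G] [CompactSpace G] [T2Space G] [TotallyDisconnectedSpace G] [Field K]
  [MulSemiringAction G K] {ζ : K}

omit [TopologicalSpace G] [IsTopologicalGroup G] [CompactSpace G] [T2Space G]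
  [TotallyDisconnectedSpace G] in
lemma D7aux.incl_smul {A B : ValuationSubring K} {g : G} (h : ∀ x : K, x ∈ A ↔ g • x ∈ B)
    {x : K} : InCl A (Fx G) x ↔ InCl B (Fx G) (g • x) := by
  constructor
  · intro hx c hc
    obtain ⟨e, he, t, ht, rfl⟩ := hx (g⁻¹ • c) (by simpa using (smul_ne_zero_iff_ne g⁻¹).2 hc)
    refine ⟨e, he, g • t, (h t).1 ht, ?_⟩
    rw [smul_add, smul_mul', smul_inv_smul, he g]
  · intro hx c hc
    obtain ⟨e, he, t, ht, e1⟩ := hx (g • c) ((smul_ne_zero_iff_ne g).2 hc)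
    refine ⟨e, he, g⁻¹ • t, ?_, ?_⟩
    · rw [h, smul_inv_smul]
      exact ht
    · apply MulAction.injective g
      change g • x = g • (e + c * g⁻¹ • t)
      rw [smul_add, smul_mul', smul_inv_smul, he g]
      exact e1

/-- D7 (uses O5, O6, D4) -/
theorem dec_conj (Gd : Good p G K ζ) (A B : ValuationSubring K)
    (h : res G A ⊔ res G B ≠ ⊤) :
    ∃ g : G, ∀ σ : G, σ ∈ Dec G B ↔ g⁻¹ * σ * g ∈ Dec G A := by
  obtain ⟨A', hA', eA⟩ := exists_coarse A (res G A ⊔ res G B) le_sup_left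
  obtain ⟨B', hB', eB⟩ := exists_coarse B (res G A ⊔ res G B) le_sup_right
  have htop : res G (⊤ : ValuationSubring K) = ⊤ := by
    ext x
    simp [res]
  have hA : A' ≠ ⊤ := by
    rintro rfl
    exact h (eA.symm.trans htop)
  have hB : B' ≠ ⊤ := by
    rintro rfl
    exact h (eB.symm.trans htop)
  obtain ⟨g, hg⟩ := exists_conj Gd.cont A' B' (eA.trans eB.symm)
  refine ⟨g, fun σ => ?_⟩
  rw [dec_eq_of_le B B' hB' hB, dec_eq_of_le A A' hA' hA]
  constructor
  · intro hσ x hx
    have h1 := hσ (g • x) ((D7aux.incl_smul hg).1 hx)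
    rw [mul_smul, mul_smul, h1, inv_smul_smul]
  · intro hσ x hx
    have h2 : InCl A' (Fx G) (g⁻¹ • x) := by
      rw [D7aux.incl_smul hg, smul_inv_smul]
      exact hx
    have h1 := hσ (g⁻¹ • x) h2
    rw [mul_smul, mul_smul, smul_inv_smul] at h1
    exact MulAction.injective g⁻¹ h1

end Galois

end Pool.Helper37.ETC
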