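import Pool.Agent.Helper50.ETC.F4
import Pool.Agent.Helper30.ETC.F5

/-! Block W3 of the Elementary Type Conjecture (MP_600e55_nt). -/

set_option autoImplicit false

namespace Pool.Helper37.ETC

section Galois

variable {p : ℕ} [Fact p.Prime] {G K : Type*} [Group G] [TopologicalSpace G]
  [IsTopologicalGroup G] [CompactSpace G] [T2Space G] [TotallyDisconnectedSpace G] [Field K]
  [MulSemiringAction G K] {ζ : K}


/-- W3 (free pro-p groups; uses F4, F5) -/
theorem free_family (hP : PP p G) (hfin : FinH1 p G)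
    (h2 : ∀ c : G → G → ZMod p, IsCoc p c → IsCob p c) :
    ∃ (n : ℕ) (g : Fin n → G), (∀ i, g i ≠ 1) ∧
      Univ p (fun i => (Subgroup.zpowers (g i)).topologicalClosure) := by
  obtain ⟨m, g, hg, hH⟩ := exists_compl hfin (n := 0) (fun i => i.elim0) (by
    intro χ _
    refine ⟨fun _ => 0, ⟨fun _ _ => by simp, IsLocallyConstant.const 0⟩, fun i => i.elim0⟩)
  refine ⟨0 + m, fun i => g (Fin.cast (zero_add m) i), ?_, ?_⟩
  · intro i hi
    obtain ⟨ψ, hψ, hne, -⟩ := hg (Fin.cast (zero_add m) i)
    apply hne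
    have h1 := hψ.1 1 1
    rw [mul_one] at h1
    rw [show g (Fin.cast (zero_add m) i) = 1 from hi]
    simpa using h1
  · refine univ_of_h1_h2 _ (hH _ (fun i => i.elim0) (fun j => ?_)) (fun c hc _ => h2 c hc)
    have : Fin.cast (zero_add m) (Fin.natAdd 0 j) = j := by
      ext
      simp
    simp only [this]

end Galois

end Pool.Helper37.ETC
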